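import Pool.Agent.W845.PM.Base

set_option autoImplicit false
open scoped Classical
open Filter Topology
open scoped ENNReal NNReal BigOperators

namespace Pool.Agent.W310.PM

open Pool.Agent.W845.PM

noncomputable section

/-! ## Random subsets -/

theorem ws_gen (n : ℕ) (p : ℝ) (a : Fin n → ℝ) :
    ∑ N : Finset (Fin n), ws n p N * ∏ w ∈ N, a w = ∏ w, (p * a w + (1 - p)) := by
  rw [Fintype.prod_add]
  refine Finset.sum_congr rfl fun N _ => ?_
  rw [Finset.prod_mul_distrib, Finset.prod_const, Finset.prod_const, Finset.card_compl,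
    Fintype.card_fin]
  unfold ws
  ring

theorem ws_pow (n : ℕ) (p x : ℝ) (B : Finset (Fin n)) :
    ∑ N : Finset (Fin n), ws n p N * x ^ (N ∩ B).card = (p * x + (1 - p)) ^ B.card := by
  have h := ws_gen n p (fun w => if w ∈ B then x else 1)
  have e1 : ∀ N : Finset (Fin n), ∏ w ∈ N, (if w ∈ B then x else 1) = x ^ (N ∩ B).card := by
    intro N
    rw [Finset.prod_ite_mem, Finset.prod_const]
  have e2 : ∏ w : Fin n, (p * (if w ∈ B then x else 1) + (1 - p)) = (p * x + (1 - p)) ^ B.card := by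
    have e3 : ∀ w : Fin n, (p * (if w ∈ B then x else 1) + (1 - p))
        = if w ∈ B then (p * x + (1 - p)) else 1 := by
      intro w
      split_ifs
      · rfl
      · ring
    simp only [e3]
    rw [Finset.prod_ite_mem, Finset.univ_inter, Finset.prod_const]
  simp only [e1] at h
  rw [h, e2]

theorem ws_zero (n : ℕ) (p : ℝ) (B : Finset (Fin n)) :
    ∑ N : Finset (Fin n), ws n p N * (if (N ∩ B).card = 0 then 1 else 0) = (1 - p) ^ B.card := by
  have h := ws_pow n p 0 B
  simp only [zero_pow_eq, mul_zero, zero_add] at h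
  exact h

theorem ws_one (n : ℕ) (p : ℝ) (B : Finset (Fin n)) :
    ∑ N : Finset (Fin n), ws n p N * (if (N ∩ B).card = 1 then 1 else 0)
      = B.card * p * (1 - p) ^ (B.card - 1) := by
  have h1 : HasDerivAt (fun x : ℝ => ∑ N : Finset (Fin n), ws n p N * x ^ (N ∩ B).card)
      (∑ N : Finset (Fin n), ws n p N * (((N ∩ B).card : ℝ) * 0 ^ ((N ∩ B).card - 1))) 0 := by
    refine HasDerivAt.fun_sum fun N _ => ?_
    exact (hasDerivAt_pow _ 0).const_mul _
  have h2 : HasDerivAt (fun x : ℝ => (p * x + (1 - p)) ^ B.card)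
      ((B.card : ℝ) * (p * 0 + (1 - p)) ^ (B.card - 1) * p) 0 := by
    have h3 : HasDerivAt (fun x : ℝ => p * x + (1 - p)) p 0 := by
      simpa using ((hasDerivAt_id (0 : ℝ)).const_mul p).add_const (1 - p)
    exact h3.fun_pow B.card
  have h3 : (fun x : ℝ => ∑ N : Finset (Fin n), ws n p N * x ^ (N ∩ B).card)
      = fun x : ℝ => (p * x + (1 - p)) ^ B.card := funext fun x => ws_pow n p x B
  rw [h3] at h1
  have h4 := h1.unique h2
  have e : ∀ k : ℕ, ((k : ℝ) * 0 ^ (k - 1)) = if k = 1 then 1 else 0 := by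
    intro k
    rcases k with _ | _ | k
    · simp
    · simp
    · simp
  simp only [e] at h4
  rw [h4]
  ring

theorem ws_two (hone : S_ONE) (n : ℕ) (p : ℝ) (B : Finset (Fin n)) :
    ∑ N : Finset (Fin n), ws n p N * (if 2 ≤ (N ∩ B).card then 1 else 0)
      = 1 - (1 - p) ^ B.card - B.card * p * (1 - p) ^ (B.card - 1) := by
  have h : ∑ N : Finset (Fin n), ws n p N * (if 2 ≤ (N ∩ B).card then 1 else 0)
      + ∑ N : Finset (Fin n), ws n p N * (if (N ∩ B).card = 0 then 1 else 0)
      + ∑ N : Finset (Fin n), ws n p N * (if (N ∩ B).card = 1 then 1 else 0)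
      = ∑ N : Finset (Fin n), ws n p N := by
    rw [← Finset.sum_add_distrib, ← Finset.sum_add_distrib]
    refine Finset.sum_congr rfl fun N _ => ?_
    by_cases h0 : (N ∩ B).card = 0
    · simp [h0]
    · by_cases h1 : (N ∩ B).card = 1
      · simp [h1]
      · have h2 : 2 ≤ (N ∩ B).card := by omega
        simp [h0, h1, h2]
  rw [ws_zero, ws_one, (hone n p).2] at h
  linarith

/-- two given elements -/
theorem ws_pair (n : ℕ) (p : ℝ) (a b : Fin n) (hab : a ≠ b) :
    ∑ N : Finset (Fin n), ws n p N * (if a ∈ N ∧ b ∈ N then 1 else 0) = p ^ 2 := by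
  have h := Fintype.prod_add (fun _ : Fin n => p)
    (fun w => if w ∈ ({a, b} : Finset (Fin n)) then 0 else 1 - p)
  have e1 : ∏ w : Fin n, (p + (if w ∈ ({a, b} : Finset (Fin n)) then 0 else 1 - p)) = p ^ 2 := by
    have e3 : ∀ w : Fin n, (p + (if w ∈ ({a, b} : Finset (Fin n)) then 0 else 1 - p))
        = if w ∈ ({a, b} : Finset (Fin n)) then p else 1 := by
      intro w
      split_ifs
      · ring
      · ring
    simp only [e3]
    rw [Finset.prod_ite_mem, Finset.univ_inter, Finset.prod_const, Finset.card_pair hab]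
  rw [e1] at h
  rw [h]
  refine Finset.sum_congr rfl fun N _ => ?_
  by_cases hN : a ∈ N ∧ b ∈ N
  · rw [if_pos hN, mul_one, Finset.prod_const]
    have e4 : ∏ w ∈ Nᶜ, (if w ∈ ({a, b} : Finset (Fin n)) then 0 else 1 - p)
        = ∏ w ∈ Nᶜ, (1 - p) := by
      refine Finset.prod_congr rfl fun w hw => ?_
      rw [if_neg]
      intro hw'
      rw [Finset.mem_compl] at hw
      rcases Finset.mem_insert.1 hw' with h' | h'
      · exact hw (h' ▸ hN.1)
      · exact hw (Finset.mem_singleton.1 h' ▸ hN.2)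
    rw [e4, Finset.prod_const, Finset.card_compl, Fintype.card_fin]
    rfl
  · rw [if_neg hN, mul_zero]
    symm
    rw [mul_eq_zero]
    right
    rw [Finset.prod_eq_zero_iff]
    by_cases ha : a ∈ N
    · have hb : b ∉ N := fun hb => hN ⟨ha, hb⟩
      exact ⟨b, Finset.mem_compl.2 hb, by simp⟩
    · exact ⟨a, Finset.mem_compl.2 ha, by simp⟩

/-! ## Analysis -/

theorem psi_lip (x y : ℝ) (hx : 0 ≤ x) (hy : 0 ≤ y) :
    |(1 + x) * Real.exp (-x) - (1 + y) * Real.exp (-y)| ≤ |x - y| := by
  have h := Convex.norm_image_sub_le_of_norm_hasDerivWithin_le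
    (f := fun x : ℝ => (1 + x) * Real.exp (-x)) (f' := fun x : ℝ => -(x * Real.exp (-x)))
    (C := 1) (s := Set.Ici (0 : ℝ)) (x := y) (y := x) ?_ ?_ (convex_Ici 0) hy hx
  · simpa using h
  · intro t _
    have h1 : HasDerivAt (fun x : ℝ => (1 + x)) 1 t := by
      simpa using (hasDerivAt_id t).const_add 1
    have h2 : HasDerivAt (fun x : ℝ => Real.exp (-x)) (Real.exp (-t) * -1) t :=
      (hasDerivAt_neg t).exp
    have h3 := h1.mul h2
    refine (h3.congr_deriv ?_).hasDerivWithinAt
    ring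
  · intro t ht
    have ht' : 0 ≤ t := ht
    rw [norm_neg, Real.norm_of_nonneg (by positivity), Real.exp_neg,
      mul_inv_le_iff₀ (Real.exp_pos t), one_mul]
    have := Real.add_one_le_exp t
    linarith

theorem pow_approx (p : ℝ) (h0 : 0 ≤ p) (h1 : p ≤ 1) (b : ℕ) :
    |(1 - p) ^ b - Real.exp (-(p * b))| ≤ b * p ^ 2 := by
  have e : Real.exp (-(p * b)) = Real.exp (-p) ^ b := by
    rw [← Real.exp_nat_mul]
    congr 1
    ring
  rw [e]
  refine (abs_pow_sub_pow_le _ _ _).trans ?_
  have h2 : |1 - p - Real.exp (-p)| ≤ p ^ 2 := by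
    have h3 := Real.abs_exp_sub_one_sub_id_le (x := -p) (by rw [abs_neg, abs_of_nonneg h0]; exact h1)
    rw [abs_sub_comm]
    have e1 : Real.exp (-p) - (1 - p) = Real.exp (-p) - 1 - -p := by ring
    rw [e1]
    simpa using h3
  have h3 : max |1 - p| |Real.exp (-p)| ^ (b - 1) ≤ 1 := by
    refine pow_le_one₀ (le_max_of_le_left (abs_nonneg _)) (max_le ?_ ?_)
    · rw [abs_of_nonneg (by linarith)]
      linarith
    · rw [abs_of_pos (Real.exp_pos _)]
      exact Real.exp_le_one_iff.2 (by linarith)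
  calc |1 - p - Real.exp (-p)| * b * max |1 - p| |Real.exp (-p)| ^ (b - 1)
      ≤ p ^ 2 * b * 1 := by
        refine mul_le_mul ?_ h3 (by positivity) (by positivity)
        exact mul_le_mul_of_nonneg_right h2 (Nat.cast_nonneg b)
    _ = b * p ^ 2 := by ring

theorem binom_approx (p : ℝ) (h0 : 0 ≤ p) (h1 : p ≤ 1) (b : ℕ) :
    |(1 - (1 - p) ^ b - b * p * (1 - p) ^ (b - 1)) - (1 - (1 + p * b) * Real.exp (-(p * b)))|
      ≤ b * p ^ 2 + p * b * (b * p ^ 2 + p) := by
  have hb : (0 : ℝ) ≤ b := Nat.cast_nonneg b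
  have h2 := pow_approx p h0 h1 b
  have h3 : (b : ℝ) * p * |(1 - p) ^ (b - 1) - Real.exp (-(p * b))| ≤ p * b * (b * p ^ 2 + p) := by
    rcases b with _ | b
    · simp
    · have h4 := pow_approx p h0 h1 b
      have h5 : |Real.exp (-(p * b)) - Real.exp (-(p * ((b + 1 : ℕ) : ℝ)))| ≤ p := by
        have e1 : Real.exp (-(p * ((b + 1 : ℕ) : ℝ))) = Real.exp (-(p * b)) * Real.exp (-p) := by
          rw [← Real.exp_add]
          congr 1
          push_cast
          ring
        have e2 : Real.exp (-(p * b)) - Real.exp (-(p * b)) * Real.exp (-p)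
            = Real.exp (-(p * b)) * (1 - Real.exp (-p)) := by ring
        have h6 : Real.exp (-p) ≤ 1 := Real.exp_le_one_iff.2 (by linarith)
        have h7 : Real.exp (-(p * b)) ≤ 1 := Real.exp_le_one_iff.2 (by
          have : 0 ≤ p * (b : ℝ) := by positivity
          linarith)
        have h8 := Real.add_one_le_exp (-p)
        rw [e1, e2, abs_of_nonneg (mul_nonneg (Real.exp_pos _).le (by linarith))]
        calc Real.exp (-(p * b)) * (1 - Real.exp (-p)) ≤ 1 * (1 - Real.exp (-p)) :=
              mul_le_mul_of_nonneg_right h7 (by linarith)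
          _ ≤ p := by linarith
      have h6 : |(1 - p) ^ (b + 1 - 1) - Real.exp (-(p * ((b + 1 : ℕ) : ℝ)))|
          ≤ ((b + 1 : ℕ) : ℝ) * p ^ 2 + p := by
        rw [Nat.add_sub_cancel]
        calc |(1 - p) ^ b - Real.exp (-(p * ((b + 1 : ℕ) : ℝ)))|
            = |((1 - p) ^ b - Real.exp (-(p * b))) +
              (Real.exp (-(p * b)) - Real.exp (-(p * ((b + 1 : ℕ) : ℝ))))| := by
              congr 1
              ring
          _ ≤ b * p ^ 2 + p := (abs_add_le _ _).trans (add_le_add h4 h5)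
          _ ≤ _ := by
              push_cast
              nlinarith [sq_nonneg p]
      calc ((b + 1 : ℕ) : ℝ) * p * |(1 - p) ^ (b + 1 - 1) - Real.exp (-(p * ((b + 1 : ℕ) : ℝ)))|
          ≤ ((b + 1 : ℕ) : ℝ) * p * (((b + 1 : ℕ) : ℝ) * p ^ 2 + p) :=
            mul_le_mul_of_nonneg_left h6 (by positivity)
        _ = _ := by ring
  have e : (1 - (1 - p) ^ b - b * p * (1 - p) ^ (b - 1)) - (1 - (1 + p * b) * Real.exp (-(p * b)))
      = -((1 - p) ^ b - Real.exp (-(p * b))) +
        -(b * p * ((1 - p) ^ (b - 1) - Real.exp (-(p * b)))) := by ring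
  rw [e]
  refine (abs_add_le _ _).trans (add_le_add ?_ ?_)
  · rw [abs_neg]
    exact h2
  · rw [abs_neg, abs_mul, abs_of_nonneg (by positivity)]
    exact h3

theorem main_approx (c ι q : ℝ) (hc : 0 ≤ c) (hι : 0 ≤ ι) (h0 : 0 ≤ q) (h1 : q ≤ 1) (r b : ℕ)
    (hr : 1 ≤ r) (hb : b ≤ r) :
    |(1 - (1 - q) ^ b - b * q * (1 - q) ^ (b - 1)) - (1 - (1 + c * ι) * Real.exp (-(c * ι)))|
      ≤ (r * q ^ 2 + r * q * (r * q ^ 2 + q) + |r * q - c|) + c * |(b : ℝ) / r - ι| := by
  have hrR : (0 : ℝ) < r := by exact_mod_cast hr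
  have hbR : (b : ℝ) ≤ r := by exact_mod_cast hb
  have hb0 : (0 : ℝ) ≤ b := Nat.cast_nonneg b
  have h2 := binom_approx q h0 h1 b
  have h3 := psi_lip (q * b) (c * (b / r)) (by positivity) (by positivity)
  have h4 := psi_lip (c * (b / r)) (c * ι) (by positivity) (by positivity)
  have h5 : |q * b - c * (b / r)| ≤ |r * q - c| := by
    have e : q * b - c * (b / r) = (b / r) * (r * q - c) := by field_simp
    rw [e, abs_mul, abs_of_nonneg (by positivity)]
    have : (b : ℝ) / r ≤ 1 := (div_le_one hrR).2 hbR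
    calc (b : ℝ) / r * |r * q - c| ≤ 1 * |r * q - c| :=
          mul_le_mul_of_nonneg_right this (abs_nonneg _)
      _ = _ := one_mul _
  have h6 : |c * (b / r) - c * ι| = c * |(b : ℝ) / r - ι| := by
    rw [← mul_sub, abs_mul, abs_of_nonneg hc]
  have h7 : (b : ℝ) * q ^ 2 + q * b * (b * q ^ 2 + q) ≤ r * q ^ 2 + r * q * (r * q ^ 2 + q) := by
    have a1 : (b : ℝ) * q ^ 2 ≤ r * q ^ 2 := mul_le_mul_of_nonneg_right hbR (by positivity)
    have a2 : q * b * (b * q ^ 2 + q) ≤ r * q * (r * q ^ 2 + q) := by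
      refine mul_le_mul ?_ (by linarith) (by positivity) (by positivity)
      rw [mul_comm]
      exact mul_le_mul_of_nonneg_right hbR h0
    linarith
  have e : (1 - (1 - q) ^ b - b * q * (1 - q) ^ (b - 1)) - (1 - (1 + c * ι) * Real.exp (-(c * ι)))
      = ((1 - (1 - q) ^ b - b * q * (1 - q) ^ (b - 1)) - (1 - (1 + q * b) * Real.exp (-(q * b))))
        + -(((1 + q * b) * Real.exp (-(q * b)) - (1 + c * (b / r)) * Real.exp (-(c * (b / r))))
        + ((1 + c * (b / r)) * Real.exp (-(c * (b / r))) - (1 + c * ι) * Real.exp (-(c * ι)))) := by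
    ring
  rw [e]
  refine (abs_add_le _ _).trans ?_
  rw [abs_neg]
  have h8 := abs_add_le ((1 + q * b) * Real.exp (-(q * b)) -
    (1 + c * (b / r)) * Real.exp (-(c * (b / r))))
    ((1 + c * (b / r)) * Real.exp (-(c * (b / r))) - (1 + c * ι) * Real.exp (-(c * ι)))
  linarith

/-! ## Symmetry -/

theorem del_comap {V W : Type} (e : V ≃ W) (G : SimpleGraph W) (v : V) :
    del (G.comap e) v = (del G (e v)).comap e := by
  ext a b
  simp [del]

theorem J_comap {V W : Type} (e : V ≃ W) (k : ℕ) : ∀ (G : SimpleGraph W) (v : V),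
    J k (G.comap e) v ↔ J k G (e v) := by
  induction k with
  | zero => intro G v; rfl
  | succ k ih =>
    intro G v
    simp only [J]
    rw [del_comap]
    constructor
    · intro h w hw hJ
      have h1 := h (e.symm w) (by simpa using hw)
      rw [ih] at h1
      simp only [Equiv.apply_symm_apply] at h1
      exact h1 hJ
    · intro h w hw hJ
      rw [ih] at hJ
      exact h (e w) hw hJ

theorem near_comap {V W : Type} (e : V ≃ W) (j : ℕ) (G : SimpleGraph W) (a b : V) :
    near j (G.comap e) a b ↔ near j G (e a) (e b) := by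
  constructor
  · rintro ⟨w, hw⟩
    refine ⟨w.map ⟨e, fun {x y} h => h⟩, ?_⟩
    rw [SimpleGraph.Walk.length_map]
    exact hw
  · rintro ⟨w, hw⟩
    have h1 : near j (G.comap e) (e.symm (e a)) (e.symm (e b)) := by
      refine ⟨w.map ⟨e.symm, fun {x y} h => ?_⟩, ?_⟩
      · simpa using h
      · rw [SimpleGraph.Walk.length_map]
        exact hw
    simpa using h1

theorem avg (hcom : S_COM) (r : ℕ) (p : ℝ) (P : SimpleGraph (Fin (r + 1)) → Fin (r + 1) → Prop)
    (hP : ∀ (σ : Equiv.Perm (Fin (r + 1))) G v, P (G.comap σ) v ↔ P G (σ v)) :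
    EG (r + 1) p (fun G => ((Finset.univ.filter (fun v => P G v)).card : ℝ) / ((r + 1 : ℕ) : ℝ))
      = EG (r + 1) p (fun G => if P G (Fin.last r) then (1 : ℝ) else 0) := by
  have h1 : ∀ v, EG (r + 1) p (fun G => if P G v then (1 : ℝ) else 0)
      = EG (r + 1) p (fun G => if P G (Fin.last r) then (1 : ℝ) else 0) := by
    intro v
    have h2 := hcom (r + 1) (r + 1) (Equiv.swap v (Fin.last r)).toEmbedding p
      (fun G => if P G v then (1 : ℝ) else 0)
    rw [← h2]
    refine EG_congr fun G => ?_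
    have h3 := hP (Equiv.swap v (Fin.last r)) G v
    rw [Equiv.swap_apply_left] at h3
    by_cases h4 : P G (Fin.last r)
    · rw [if_pos h4]
      exact if_pos (h3.2 h4)
    · rw [if_neg h4]
      exact if_neg fun h5 => h4 (h3.1 h5)
  rw [EG_div]
  have h2 : EG (r + 1) p (fun G => ((Finset.univ.filter (fun v => P G v)).card : ℝ))
      = ∑ v, EG (r + 1) p (fun G => if P G v then (1 : ℝ) else 0) := by
    rw [← EG_sum]
    refine EG_congr fun G => ?_
    rw [Finset.natCast_card_filter]
  rw [h2, Finset.sum_congr rfl fun v _ => h1 v, Finset.sum_const, Finset.card_univ,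
    Fintype.card_fin, nsmul_eq_mul]
  have : ((r + 1 : ℕ) : ℝ) ≠ 0 := by positivity
  field_simp

/-! ## The last vertex -/

theorem J_ext {r : ℕ} (k : ℕ) : ∀ (K : SimpleGraph (Fin r)) (w : Fin r),
    J k (ext K ∅) (Fin.castSucc w) ↔ J k K w := by
  induction k with
  | zero => intro K w; rfl
  | succ k ih =>
    intro K w
    simp only [J]
    rw [del_ext_castSucc]
    constructor
    · intro h y hy hJ
      exact h (Fin.castSucc y) ((ext_adj_castSucc K ∅ w y).2 hy) ((ih _ y).2 hJ)
    · intro h y hy hJ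
      rcases Fin.eq_castSucc_or_eq_last y with ⟨z, rfl⟩ | rfl
      · exact h z ((ext_adj_castSucc K ∅ w z).1 hy) ((ih _ z).1 hJ)
      · have := (ext_adj_last K ∅ w).1 hy.symm
        simp at this

/-- the property defining `LD` -/
def PLD {V : Type} (k : ℕ) (G : SimpleGraph V) (v : V) : Prop :=
  ∃ w w' : V, w ≠ w' ∧ G.Adj v w ∧ G.Adj v w' ∧ J k (del G v) w ∧ J k (del G v) w'

/-- the property defining `LB` -/
def PLB {V : Type} (j : ℕ) (G : SimpleGraph V) (v : V) : Prop :=
  ∃ w w' : V, w ≠ w' ∧ G.Adj v w ∧ G.Adj v w' ∧ near j (del G v) w w'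

theorem LD_eq {V : Type} [Fintype V] (k : ℕ) (G : SimpleGraph V) :
    LD k G = Finset.univ.filter (fun v => PLD k G v) := by
  unfold LD PLD
  congr!

theorem LB_eq {V : Type} [Fintype V] (j : ℕ) (G : SimpleGraph V) :
    LB j G = Finset.univ.filter (fun v => PLB j G v) := by
  unfold LB PLB
  congr!

theorem last_LD {r : ℕ} (k : ℕ) (K : SimpleGraph (Fin r)) (N : Finset (Fin r)) :
    PLD k (ext K N) (Fin.last r) ↔
    2 ≤ (N ∩ Finset.univ.filter (fun v => J k K v)).card := by
  unfold PLD
  rw [del_ext_last]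
  constructor
  · rintro ⟨w, w', hne, h1, h2, h3, h4⟩
    rcases Fin.eq_castSucc_or_eq_last w with ⟨x, rfl⟩ | rfl
    · rcases Fin.eq_castSucc_or_eq_last w' with ⟨y, rfl⟩ | rfl
      · have := (Finset.one_lt_card (s := N ∩ Finset.univ.filter (fun v => J k K v))).2
          ⟨x, by
            rw [Finset.mem_inter, Finset.mem_filter]
            exact ⟨(ext_adj_last K N x).1 h1, Finset.mem_univ _, (J_ext k K x).1 h3⟩, y, by
            rw [Finset.mem_inter, Finset.mem_filter]
            exact ⟨(ext_adj_last K N y).1 h2, Finset.mem_univ _, (J_ext k K y).1 h4⟩,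
            fun h => hne (by rw [h])⟩
        omega
      · exact absurd h2 ((ext K N).loopless.irrefl _)
    · exact absurd h1 ((ext K N).loopless.irrefl _)
  · intro h
    obtain ⟨x, hx, y, hy, hxy⟩ := Finset.one_lt_card.1 (show 1 < _ from h)
    rw [Finset.mem_inter, Finset.mem_filter] at hx hy
    exact ⟨Fin.castSucc x, Fin.castSucc y, fun h' => hxy (Fin.castSucc_injective r h'),
      (ext_adj_last K N x).2 hx.1, (ext_adj_last K N y).2 hy.1, (J_ext k K x).2 hx.2.2,
      (J_ext k K y).2 hy.2.2⟩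

theorem walk_ext {r : ℕ} (K : SimpleGraph (Fin r)) (a b : Fin (r + 1))
    (W : (ext K ∅).Walk a b) : ∀ x y : Fin r, a = Fin.castSucc x → b = Fin.castSucc y →
      ∃ w : K.Walk x y, w.length ≤ W.length := by
  induction W with
  | nil =>
    intro x y hx hy
    have : x = y := Fin.castSucc_injective r (hx.symm.trans hy)
    subst this
    exact ⟨SimpleGraph.Walk.nil, by simp⟩
  | cons h W ih =>
    intro x y hx hy
    subst hx
    rename_i c d
    rcases Fin.eq_castSucc_or_eq_last c with ⟨z, rfl⟩ | rfl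
    · obtain ⟨w, hw⟩ := ih z y rfl hy
      exact ⟨SimpleGraph.Walk.cons ((ext_adj_castSucc K ∅ x z).1 h) w, by simpa using hw⟩
    · have := (ext_adj_last K ∅ x).1 h.symm
      simp at this

theorem last_LB {r : ℕ} (j : ℕ) (K : SimpleGraph (Fin r)) (N : Finset (Fin r))
    (h : PLB j (ext K N) (Fin.last r)) :
    ∃ x y : Fin r, x ≠ y ∧ x ∈ N ∧ y ∈ N ∧ near j K x y := by
  unfold PLB at h
  rw [del_ext_last] at h
  obtain ⟨w, w', hne, h1, h2, W, hW⟩ := h
  rcases Fin.eq_castSucc_or_eq_last w with ⟨x, rfl⟩ | rfl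
  · rcases Fin.eq_castSucc_or_eq_last w' with ⟨y, rfl⟩ | rfl
    · obtain ⟨w1, hw1⟩ := walk_ext K _ _ W x y rfl rfl
      exact ⟨x, y, fun h => hne (by rw [h]), (ext_adj_last K N x).1 h1, (ext_adj_last K N y).1 h2,
        w1, hw1.trans hW⟩
    · exact absurd h2 ((ext K N).loopless.irrefl _)
  · exact absurd h1 ((ext K N).loopless.irrefl _)

/-! ## The theorems -/

theorem bd2 : S_EXT → S_ONE → S_COM → S_JU → S_UEXT → S_UISO → S_BD2 := by
  intro hext hone hcom _ _ _ c k ι hc hι0 hι1 hconv p hp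
  rw [← tendsto_add_atTop_iff_nat 1]
  have hq := hp.shift 1
  have hlim := hconv _ hq
  set φ : ℝ := 1 - (1 + c * ι) * Real.exp (-(c * ι)) with hφ
  have hE : Tendsto (fun r : ℕ => ((r : ℝ) * p (r + 1) ^ 2 + r * p (r + 1) *
      (r * p (r + 1) ^ 2 + p (r + 1)) + |r * p (r + 1) - c|)
      + c * EG r (p (r + 1)) (fun G => |(∑ v, (if J k G v then (1 : ℝ) else 0)) / r - ι|))
      atTop (𝓝 0) := by
    have a1 := hq.mul_sq
    have a2 := hq.2
    have a3 := hq.tendsto_zero
    have a4 : Tendsto (fun r : ℕ => |(r : ℝ) * p (r + 1) - c|) atTop (𝓝 0) := by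
      have := (a2.sub_const c).abs
      simpa using this
    have := ((a1.add (a2.mul (a1.add a3))).add a4).add (hlim.const_mul c)
    simpa using this
  rw [tendsto_iff_norm_sub_tendsto_zero]
  refine squeeze_zero' (Eventually.of_forall fun r => norm_nonneg _) ?_ hE
  filter_upwards [eventually_ge_atTop 1] with r hr
  obtain ⟨h0, h1⟩ := hp.1 (r + 1)
  set q : ℝ := p (r + 1) with hqdef
  have e1 : EG (r + 1) q (fun G => ((LD k G).card : ℝ) / ((r + 1 : ℕ) : ℝ))
      = EG r q (fun K => 1 - (1 - q) ^ (Finset.univ.filter (fun v => J k K v)).card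
        - (Finset.univ.filter (fun v => J k K v)).card * q *
          (1 - q) ^ ((Finset.univ.filter (fun v => J k K v)).card - 1)) := by
    have e2 := avg hcom r q (fun G v => PLD k G v) (by
        intro σ G v
        unfold PLD
        rw [del_comap]
        constructor
        · rintro ⟨w, w', a1, a2, a3, a4, a5⟩
          exact ⟨σ w, σ w', fun h => a1 (σ.injective h), a2, a3, (J_comap σ k _ _).1 a4,
            (J_comap σ k _ _).1 a5⟩
        · rintro ⟨w, w', a1, a2, a3, a4, a5⟩
          refine ⟨σ.symm w, σ.symm w', fun h => a1 (σ.symm.injective h), ?_, ?_, ?_, ?_⟩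
          · simpa using a2
          · simpa using a3
          · rw [J_comap]; simpa using a4
          · rw [J_comap]; simpa using a5)
    refine Eq.trans ?_ (e2.trans ?_)
    · exact EG_congr fun G => by rw [LD_eq]
    · rw [hext]
      have e3 : ∀ N : Finset (Fin r), ws r q N * EG r q (fun K =>
          if PLD k (ext K N) (Fin.last r)
          then (1 : ℝ) else 0) = EG r q (fun K => ws r q N *
            (if 2 ≤ (N ∩ Finset.univ.filter (fun v => J k K v)).card then (1 : ℝ) else 0)) := by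
        intro N
        rw [EG_mul_left]
        congr 1
        refine EG_congr fun K => ?_
        by_cases h2 : 2 ≤ (N ∩ Finset.univ.filter (fun v => J k K v)).card
        · rw [if_pos h2, if_pos ((last_LD k K N).2 h2)]
        · rw [if_neg h2, if_neg (fun h3 => h2 ((last_LD k K N).1 h3))]
      rw [Finset.sum_congr rfl fun N _ => e3 N, ← EG_sum]
      refine EG_congr fun K => ?_
      exact ws_two hone r q _
  rw [e1]
  have e4 : φ = EG r q (fun _ => φ) := (EG_const hone r q φ).symm
  rw [e4, ← EG_sub, Real.norm_eq_abs]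
  refine (EG_abs_le h0 h1 _).trans ?_
  have e5 : ((r : ℝ) * q ^ 2 + r * q * (r * q ^ 2 + q) + |r * q - c|)
      + c * EG r q (fun G => |(∑ v, (if J k G v then (1 : ℝ) else 0)) / r - ι|)
      = EG r q (fun G => ((r : ℝ) * q ^ 2 + r * q * (r * q ^ 2 + q) + |r * q - c|)
        + c * |(∑ v, (if J k G v then (1 : ℝ) else 0)) / r - ι|) := by
    rw [EG_add, EG_const hone, EG_mul_left]
  rw [e5]
  refine EG_mono h0 h1 fun K => ?_
  have h2 := main_approx c ι q hc hι0 h0 h1 r (Finset.univ.filter (fun v => J k K v)).card hr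
    (by
      have := Finset.card_filter_le (Finset.univ : Finset (Fin r)) (fun v => J k K v)
      rwa [Finset.card_univ, Fintype.card_fin] at this)
  rw [Finset.natCast_card_filter] at h2
  rw [Finset.natCast_card_filter]
  exact h2

theorem bbd : S_EXT → S_ONE → S_COM → S_NEARP → S_BBD := by
  intro hext hone hcom hnear c j hc p hp
  rw [← tendsto_add_atTop_iff_nat 1]
  have hq := hp.shift 1
  have hE : Tendsto (fun r : ℕ => ((r : ℝ) * p (r + 1)) ^ 2 *
      (p (r + 1) * ∑ i ∈ Finset.range j, ((r : ℝ) * p (r + 1)) ^ i)) atTop (𝓝 0) := by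
    have a2 := hq.2
    have a3 := hq.tendsto_zero
    have a4 : Tendsto (fun r : ℕ => ∑ i ∈ Finset.range j, ((r : ℝ) * p (r + 1)) ^ i) atTop
        (𝓝 (∑ i ∈ Finset.range j, c ^ i)) := tendsto_finsetSum _ fun i _ => a2.pow i
    have := (a2.pow 2).mul (a3.mul a4)
    simpa using this
  refine squeeze_zero' (Eventually.of_forall fun r => ?_) (Eventually.of_forall fun r => ?_) hE
  · obtain ⟨h0, h1⟩ := hp.1 (r + 1)
    exact EG_nonneg h0 h1 fun G => by positivity
  obtain ⟨h0, h1⟩ := hp.1 (r + 1)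
  set q : ℝ := p (r + 1) with hqdef
  have e2 := avg hcom r q (fun G v => PLB j G v) (by
      intro σ G v
      unfold PLB
      rw [del_comap]
      constructor
      · rintro ⟨w, w', a1, a2, a3, a4⟩
        exact ⟨σ w, σ w', fun h => a1 (σ.injective h), a2, a3, (near_comap σ j _ _ _).1 a4⟩
      · rintro ⟨w, w', a1, a2, a3, a4⟩
        refine ⟨σ.symm w, σ.symm w', fun h => a1 (σ.symm.injective h), ?_, ?_, ?_⟩
        · simpa using a2
        · simpa using a3
        · rw [near_comap]; simpa using a4)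
  have e1 : EG (r + 1) q (fun G => ((LB j G).card : ℝ) / ((r + 1 : ℕ) : ℝ)) = _ :=
    Eq.trans (EG_congr fun G => by rw [LB_eq]) e2
  rw [e1, hext]
  have h2 : ∀ N : Finset (Fin r), ws r q N * EG r q (fun K =>
      if PLB j (ext K N) (Fin.last r) then (1 : ℝ) else 0) ≤
      ∑ x : Fin r, ∑ y : Fin r, (ws r q N * (if x ∈ N ∧ y ∈ N then 1 else 0)) *
        (if x ≠ y then EG r q (fun K => if near j K x y then (1 : ℝ) else 0) else 0) := by
    intro N
    have h3 : EG r q (fun K => if PLB j (ext K N) (Fin.last r) then (1 : ℝ) else 0) ≤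
      ∑ x : Fin r, ∑ y : Fin r, (if x ∈ N ∧ y ∈ N then 1 else 0) *
        (if x ≠ y then EG r q (fun K => if near j K x y then (1 : ℝ) else 0) else 0) := by
      have e6 : ∑ x : Fin r, ∑ y : Fin r, (if x ∈ N ∧ y ∈ N then (1 : ℝ) else 0) *
          (if x ≠ y then EG r q (fun K => if near j K x y then (1 : ℝ) else 0) else 0)
          = EG r q (fun K => ∑ x : Fin r, ∑ y : Fin r, (if x ∈ N ∧ y ∈ N then (1 : ℝ) else 0) *
            (if x ≠ y then (if near j K x y then (1 : ℝ) else 0) else 0)) := by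
        rw [EG_sum]
        refine Finset.sum_congr rfl fun x _ => ?_
        rw [EG_sum]
        refine Finset.sum_congr rfl fun y _ => ?_
        rw [EG_mul_left]
        congr 1
        by_cases hxy : x ≠ y
        · simp only [if_pos hxy]
        · simp only [if_neg hxy]
          rw [EG_const hone]
      rw [e6]
      refine EG_mono h0 h1 fun K => ?_
      have hnn : ∀ x y : Fin r, 0 ≤ (if x ∈ N ∧ y ∈ N then (1 : ℝ) else 0) *
            (if x ≠ y then (if near j K x y then (1 : ℝ) else 0) else 0) := by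
        intro x y
        refine mul_nonneg ?_ ?_
        · split_ifs <;> norm_num
        · split_ifs <;> norm_num
      by_cases h4 : PLB j (ext K N) (Fin.last r)
      · rw [if_pos h4]
        obtain ⟨x, y, hxy, hx, hy, hn⟩ := last_LB j K N h4
        calc (1 : ℝ) = (if x ∈ N ∧ y ∈ N then (1 : ℝ) else 0) *
              (if x ≠ y then (if near j K x y then (1 : ℝ) else 0) else 0) := by
              rw [if_pos ⟨hx, hy⟩, if_pos hxy, if_pos hn, one_mul]
          _ ≤ ∑ y : Fin r, (if x ∈ N ∧ y ∈ N then (1 : ℝ) else 0) *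
              (if x ≠ y then (if near j K x y then (1 : ℝ) else 0) else 0) :=
              Finset.single_le_sum (f := fun y => (if x ∈ N ∧ y ∈ N then (1 : ℝ) else 0) *
                (if x ≠ y then (if near j K x y then (1 : ℝ) else 0) else 0))
                (fun y _ => hnn x y) (Finset.mem_univ y)
          _ ≤ _ := Finset.single_le_sum (f := fun x => ∑ y : Fin r,
                (if x ∈ N ∧ y ∈ N then (1 : ℝ) else 0) *
                (if x ≠ y then (if near j K x y then (1 : ℝ) else 0) else 0))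
                (fun x _ => Finset.sum_nonneg fun y _ => hnn x y) (Finset.mem_univ x)
      · rw [if_neg h4]
        exact Finset.sum_nonneg fun x _ => Finset.sum_nonneg fun y _ => hnn x y
    refine (mul_le_mul_of_nonneg_left h3 (ws_nonneg h0 h1 N)).trans (le_of_eq ?_)
    rw [Finset.mul_sum]
    refine Finset.sum_congr rfl fun x _ => ?_
    rw [Finset.mul_sum]
    refine Finset.sum_congr rfl fun y _ => ?_
    ring
  refine (Finset.sum_le_sum fun N _ => h2 N).trans ?_
  rw [Finset.sum_comm]
  have h5 : ∀ x : Fin r, ∑ N : Finset (Fin r), ∑ y : Fin r,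
      (ws r q N * (if x ∈ N ∧ y ∈ N then 1 else 0)) *
        (if x ≠ y then EG r q (fun K => if near j K x y then (1 : ℝ) else 0) else 0)
      ≤ ∑ y : Fin r, q ^ 2 * (q * ∑ i ∈ Finset.range j, ((r : ℝ) * q) ^ i) := by
    intro x
    rw [Finset.sum_comm]
    refine Finset.sum_le_sum fun y _ => ?_
    rw [← Finset.sum_mul]
    by_cases hxy : x ≠ y
    · rw [ws_pair r q x y hxy, if_pos hxy]
      exact mul_le_mul_of_nonneg_left (hnear j r q x y h0 h1 hxy) (by positivity)
    · rw [if_neg hxy, mul_zero]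
      positivity
  refine (Finset.sum_le_sum fun x _ => h5 x).trans (le_of_eq ?_)
  rw [Finset.sum_const, Finset.sum_const, Finset.card_univ, Fintype.card_fin, nsmul_eq_mul,
    nsmul_eq_mul]
  ring

end

end Pool.Agent.W310.PM
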